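import Mathlib

set_option autoImplicit false

/-!
# Heights of rational functions over `ℚ`
-/

namespace H78.Tw

open Height Finset

lemma eval_homogenize (P : Polynomial ℚ) (d : ℕ) (hP : P.natDegree ≤ d) (x : ℚ) :
    MvPolynomial.eval ![x, 1] (P.homogenize d) = P.eval x :=
  Polynomial.eval₂_homogenize_of_eq_one hP (RingHom.id ℚ) ![x, 1] rfl

theorem height_rat_le (P Q : Polynomial ℚ) (d : ℕ) (hP : P.natDegree ≤ d) (hQ : Q.natDegree ≤ d) :
    ∃ C : ℝ, ∀ x : ℚ, Q.eval x ≠ 0 →
      logHeight₁ (P.eval x / Q.eval x) ≤ d * logHeight₁ x + C := by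
  have hhom : ∀ i : Fin 2, ((![P.homogenize d, Q.homogenize d] :
      Fin 2 → MvPolynomial (Fin 2) ℚ) i).IsHomogeneous d := by
    intro i
    fin_cases i
    · exact Polynomial.isHomogeneous_homogenize P
    · exact Polynomial.isHomogeneous_homogenize Q
  obtain ⟨C, hC⟩ := logHeight_eval_le' hhom
  refine ⟨C, fun x _ => ?_⟩
  have h1 := hC ![x, 1]
  rw [logHeight₁_div_eq_logHeight, logHeight₁_eq_logHeight x]
  have e : (fun j => MvPolynomial.eval ![x, 1] ((![P.homogenize d, Q.homogenize d] :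
      Fin 2 → MvPolynomial (Fin 2) ℚ) j)) = ![P.eval x, Q.eval x] := by
    ext j
    fin_cases j
    · exact eval_homogenize P d hP x
    · exact eval_homogenize Q d hQ x
  rw [e] at h1
  linarith

/-- the affine form of `height_rat_le` in degree one -/
lemma height_mobius_le (a b c d : ℚ) :
    ∃ C : ℝ, ∀ x : ℚ, c * x + d ≠ 0 →
      logHeight₁ ((a * x + b) / (c * x + d)) ≤ logHeight₁ x + C := by
  obtain ⟨C, hC⟩ := height_rat_le (Polynomial.C a * Polynomial.X + Polynomial.C b)
    (Polynomial.C c * Polynomial.X + Polynomial.C d) 1 Polynomial.natDegree_linear_le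
    Polynomial.natDegree_linear_le
  refine ⟨C, fun x hx => ?_⟩
  have := hC x (by simpa using hx)
  simpa using this

theorem height_mobius {a b c d : ℚ} (h : a * d - b * c ≠ 0) :
    ∃ C : ℝ, ∀ x : ℚ, c * x + d ≠ 0 →
      |logHeight₁ ((a * x + b) / (c * x + d)) - logHeight₁ x| ≤ C := by
  obtain ⟨C₁, h₁⟩ := height_mobius_le a b c d
  obtain ⟨C₂, h₂⟩ := height_mobius_le d (-b) (-c) a
  refine ⟨max C₁ C₂, fun x hx => ?_⟩
  have h3 := h₁ x hx
  have e : -c * ((a * x + b) / (c * x + d)) + a = (a * d - b * c) / (c * x + d) := by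
    field_simp
    ring
  have h4 := h₂ ((a * x + b) / (c * x + d)) (by rw [e]; exact div_ne_zero h hx)
  have e2 : (d * ((a * x + b) / (c * x + d)) + -b) / (-c * ((a * x + b) / (c * x + d)) + a) = x := by
    rw [e]
    have : d * ((a * x + b) / (c * x + d)) + -b = (a * d - b * c) * x / (c * x + d) := by
      rw [eq_div_iff hx, add_mul, mul_assoc, div_mul_cancel₀ _ hx]
      ring
    rw [this, div_div_div_cancel_right₀ hx, mul_div_cancel_left₀ _ h]
  rw [e2] at h4
  rw [abs_le]
  have h5 := le_max_left C₁ C₂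
  have h6 := le_max_right C₁ C₂
  constructor <;> linarith

theorem height_quad {a b c d e f : ℚ}
    (h : (a * f - c * d) ^ 2 - (a * e - b * d) * (b * f - c * e) ≠ 0) :
    ∃ C : ℝ, ∀ x : ℚ, d * x ^ 2 + e * x + f ≠ 0 →
      |logHeight₁ ((a * x ^ 2 + b * x + c) / (d * x ^ 2 + e * x + f)) - 2 * logHeight₁ x| ≤ C := by
  have hdeg : ∀ a b c : ℚ, (Polynomial.C a * Polynomial.X ^ 2 + Polynomial.C b * Polynomial.X +
      Polynomial.C c).natDegree ≤ 2 := fun a b c => Polynomial.natDegree_quadratic_le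
  obtain ⟨C₁, h₁⟩ := height_rat_le _ _ 2 (hdeg a b c) (hdeg d e f)
  set R := (a * f - c * d) ^ 2 - (a * e - b * d) * (b * f - c * e) with hR
  set u := a * f - c * d with hu
  set v := b * f - c * e with hv
  set w := a * e - b * d with hw
  let L : ℚ → ℚ → MvPolynomial (Fin 2) ℚ := fun s t =>
    MvPolynomial.C s * MvPolynomial.X 0 + MvPolynomial.C t * MvPolynomial.X 1
  have hL : ∀ s t, (L s t).IsHomogeneous 1 := fun s t =>
    (MvPolynomial.isHomogeneous_C_mul_X _ _).add (MvPolynomial.isHomogeneous_C_mul_X _ _)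
  have hLe : ∀ s t x, MvPolynomial.eval ![x, 1] (L s t) = s * x + t := by
    intro s t x
    simp [L]
  let q : Fin 2 × Fin 2 → MvPolynomial (Fin 2) ℚ := fun ij =>
    ![![L ((u * f - v * e) / R) (-(v * f) / R), L ((v * b - u * c) / R) (v * c / R)],
      ![L (w * d / R) ((w * e - u * d) / R), L (-(w * a) / R) ((u * a - w * b) / R)]] ij.1 ij.2
  have hq : ∀ ij, (q ij).IsHomogeneous 1 := by
    rintro ⟨i, j⟩
    fin_cases i <;> fin_cases j <;> exact hL _ _
  obtain ⟨C₂, h₂⟩ := logHeight_eval_ge' (N := 2) hq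
  refine ⟨max C₁ (-C₂), fun x hx => ?_⟩
  have h3 := h₁ x (by simpa using hx)
  simp only [Polynomial.eval_add, Polynomial.eval_mul, Polynomial.eval_C, Polynomial.eval_pow,
    Polynomial.eval_X, Nat.cast_ofNat] at h3
  let p : Fin 2 → MvPolynomial (Fin 2) ℚ :=
    ![MvPolynomial.C (a * x ^ 2 + b * x + c), MvPolynomial.C (d * x ^ 2 + e * x + f)]
  have h4 := h₂ p (x := ![x, 1]) (by
    intro k
    rw [Fin.sum_univ_two]
    fin_cases k
    · change MvPolynomial.eval ![x, 1] (L _ _) * MvPolynomial.eval ![x, 1] (p 0) +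
        MvPolynomial.eval ![x, 1] (L _ _) * MvPolynomial.eval ![x, 1] (p 1) = x ^ 3
      rw [hLe, hLe]
      change _ * (MvPolynomial.eval ![x, 1] (MvPolynomial.C _)) +
        _ * (MvPolynomial.eval ![x, 1] (MvPolynomial.C _)) = _
      rw [MvPolynomial.eval_C, MvPolynomial.eval_C]
      have : x ^ 3 = R * x ^ 3 / R := by rw [mul_div_cancel_left₀ _ h]
      rw [this, hR]
      field_simp
      rw [hu, hv, hw]
      ring
    · change MvPolynomial.eval ![x, 1] (L _ _) * MvPolynomial.eval ![x, 1] (p 0) +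
        MvPolynomial.eval ![x, 1] (L _ _) * MvPolynomial.eval ![x, 1] (p 1) = (1 : ℚ) ^ 3
      rw [hLe, hLe]
      change _ * (MvPolynomial.eval ![x, 1] (MvPolynomial.C _)) +
        _ * (MvPolynomial.eval ![x, 1] (MvPolynomial.C _)) = _
      rw [MvPolynomial.eval_C, MvPolynomial.eval_C]
      have : (1 : ℚ) ^ 3 = R / R := by rw [div_self h]; ring
      rw [this, hR]
      field_simp
      rw [hu, hv, hw]
      ring)
  have e1 : (fun j => MvPolynomial.eval ![x, 1] (p j)) =
      ![a * x ^ 2 + b * x + c, d * x ^ 2 + e * x + f] := by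
    ext j
    fin_cases j <;> exact MvPolynomial.eval_C _
  rw [e1, ← logHeight₁_eq_logHeight x, ← logHeight₁_div_eq_logHeight] at h4
  rw [abs_le]
  have h5 := le_max_left C₁ (-C₂)
  have h6 := le_max_right C₁ (-C₂)
  push_cast at h4
  constructor <;> linarith

theorem height_root_le (d e : ℕ) (P : Fin (d + 1) → Polynomial ℚ)
    (hP : ∀ j, (P j).natDegree ≤ e) :
    ∃ C : ℝ, ∀ u x : ℚ, (∑ j : Fin (d + 1), (P j).eval x * u ^ (j : ℕ)) = 0 →
      (P (Fin.last d)).eval x ≠ 0 → logHeight₁ u ≤ e * logHeight₁ x + C := by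
  classical
  obtain ⟨b, hb⟩ := IsLocalization.exist_integer_multiples (nonZeroDivisors ℤ)
    (Finset.univ ×ˢ Finset.range (e + 1)) (fun ji : Fin (d + 1) × ℕ => (P ji.1).coeff ji.2)
  have hb0 : ((b : ℤ) : ℚ) ≠ 0 := by
    exact_mod_cast nonZeroDivisors.ne_zero b.2
  have hex : ∀ (j : Fin (d + 1)) (i : ℕ), ∃ z : ℤ, i ≤ e → (z : ℚ) = (b : ℤ) * (P j).coeff i := by
    intro j i
    by_cases hi : i ≤ e
    · obtain ⟨z, hz⟩ := hb (j, i) (Finset.mem_product.2 ⟨Finset.mem_univ _,
        Finset.mem_range.2 (by omega)⟩)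
      refine ⟨z, fun _ => ?_⟩
      rw [zsmul_eq_mul] at hz
      exact hz
    · exact ⟨0, fun h => absurd h hi⟩
  choose A hA using hex
  set K : ℝ := ∑ j : Fin (d + 1), ∑ i ∈ range (e + 1), |(A j i : ℝ)| with hK
  have hK0 : 0 ≤ K := Finset.sum_nonneg fun j _ => Finset.sum_nonneg fun i _ => abs_nonneg _
  refine ⟨Real.log ((d + 1) * (K + 1)), fun u x hsum hlast => ?_⟩
  set p : ℤ := x.num with hp
  set q : ℕ := x.den with hq
  set m : ℤ := u.num with hm
  set n : ℕ := u.den with hn
  have hq0 : (q : ℚ) ≠ 0 := by exact_mod_cast x.den_ne_zero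
  have hn0 : (n : ℚ) ≠ 0 := by exact_mod_cast u.den_ne_zero
  have hn1 : 1 ≤ n := u.den_pos
  have hq1 : 1 ≤ q := x.den_pos
  have hx : x = p / q := (Rat.num_div_den x).symm
  have hu : u = m / n := (Rat.num_div_den u).symm
  -- the integral coefficients
  let c : Fin (d + 1) → ℤ := fun j => ∑ i ∈ range (e + 1), A j i * p ^ i * (q : ℤ) ^ (e - i)
  have hc : ∀ j, (c j : ℚ) = (b : ℤ) * q ^ e * (P j).eval x := by
    intro j
    rw [Polynomial.eval_eq_sum_range' (Nat.lt_succ_of_le (hP j)), Finset.mul_sum]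
    simp only [c]
    rw [Int.cast_sum]
    refine Finset.sum_congr rfl fun i hi => ?_
    have hi' : i ≤ e := by
      have := Finset.mem_range.1 hi
      omega
    push_cast
    rw [hA j i hi', hx, div_pow]
    have : (q : ℚ) ^ e = q ^ (e - i) * q ^ i := by rw [← pow_add, Nat.sub_add_cancel hi']
    rw [this]
    field_simp
  have hcd : c (Fin.last d) ≠ 0 := by
    intro h
    have := hc (Fin.last d)
    rw [h, Int.cast_zero] at this
    rcases mul_eq_zero.1 this.symm with h' | h'
    · rcases mul_eq_zero.1 h' with h'' | h''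
      · exact hb0 h''
      · exact pow_ne_zero e hq0 h''
    · exact hlast h'
  have hrel : ∑ j : Fin (d + 1), c j * m ^ (j : ℕ) * (n : ℤ) ^ (d - j) = 0 := by
    have h1 : ((∑ j : Fin (d + 1), c j * m ^ (j : ℕ) * (n : ℤ) ^ (d - j) : ℤ) : ℚ) =
        (b : ℤ) * q ^ e * n ^ d * ∑ j : Fin (d + 1), (P j).eval x * u ^ (j : ℕ) := by
      rw [Int.cast_sum, Finset.mul_sum]
      refine Finset.sum_congr rfl fun j _ => ?_
      push_cast
      rw [hc j, hu, div_pow]
      have hj : (j : ℕ) ≤ d := by omega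
      have : (n : ℚ) ^ d = n ^ (d - (j : ℕ)) * n ^ (j : ℕ) := by
        rw [← pow_add, Nat.sub_add_cancel hj]
      rw [this]
      field_simp
    rw [hsum, mul_zero] at h1
    exact_mod_cast h1
  rw [Fin.sum_univ_castSucc] at hrel
  simp only [Fin.val_castSucc, Fin.val_last, Nat.sub_self, pow_zero, mul_one] at hrel
  -- the denominator divides the leading coefficient
  have hdvd : (n : ℤ) ∣ c (Fin.last d) := by
    have h1 : (n : ℤ) ∣ ∑ j : Fin d, c j.castSucc * m ^ (j : ℕ) * (n : ℤ) ^ (d - j) := by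
      refine Finset.dvd_sum fun j _ => ?_
      have hj : d - (j : ℕ) ≠ 0 := by omega
      exact Dvd.dvd.mul_left (dvd_pow_self _ hj) _
    have h2 : (n : ℤ) ∣ c (Fin.last d) * m ^ d := by
      have e : c (Fin.last d) * m ^ d =
          -∑ j : Fin d, c j.castSucc * m ^ (j : ℕ) * (n : ℤ) ^ (d - j) := by linarith
      rw [e]
      exact (dvd_neg).2 h1
    have h3 : IsCoprime (n : ℤ) (m ^ d) := (Rat.isCoprime_num_den u).symm.pow_right
    exact h3.dvd_of_dvd_mul_right h2
  -- bounds in the reals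
  set H : ℕ := max p.natAbs q with hH
  have hH1 : 1 ≤ H := le_max_of_le_right hq1
  set B : ℝ := K * (H : ℝ) ^ e with hB
  have hB0 : 0 ≤ B := by positivity
  have hpH : |(p : ℝ)| ≤ H := by
    have : (p.natAbs : ℝ) = |(p : ℝ)| := by
      rw [Nat.cast_natAbs, Int.cast_abs]
    rw [← this]
    exact_mod_cast le_max_left _ _
  have hqH : (q : ℝ) ≤ H := by exact_mod_cast le_max_right _ _
  have hcB : ∀ j, |(c j : ℝ)| ≤ B := by
    intro j
    have h1 : |(c j : ℝ)| ≤ ∑ i ∈ range (e + 1), |(A j i : ℝ)| * (H : ℝ) ^ e := by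
      simp only [c]
      rw [Int.cast_sum]
      refine (Finset.abs_sum_le_sum_abs _ _).trans (Finset.sum_le_sum fun i hi => ?_)
      have hi' : i ≤ e := by
        have := Finset.mem_range.1 hi
        omega
      push_cast
      rw [abs_mul, abs_mul, abs_pow, abs_pow, Nat.abs_cast, mul_assoc]
      refine mul_le_mul_of_nonneg_left ?_ (abs_nonneg _)
      calc |(p : ℝ)| ^ i * (q : ℝ) ^ (e - i) ≤ (H : ℝ) ^ i * (H : ℝ) ^ (e - i) := by gcongr
        _ = (H : ℝ) ^ e := by rw [← pow_add, Nat.add_sub_cancel' hi']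
    refine h1.trans ?_
    rw [← Finset.sum_mul, hB]
    refine mul_le_mul_of_nonneg_right ?_ (by positivity)
    exact Finset.single_le_sum (f := fun j => ∑ i ∈ range (e + 1), |(A j i : ℝ)|)
      (fun j _ => Finset.sum_nonneg fun i _ => abs_nonneg _) (Finset.mem_univ j)
  have hnc : (n : ℝ) ≤ |(c (Fin.last d) : ℝ)| := by
    have h1 := Int.le_of_dvd (abs_pos.2 hcd) ((dvd_abs _ _).2 hdvd)
    have h2 : ((n : ℤ) : ℝ) ≤ ((|c (Fin.last d)| : ℤ) : ℝ) := by exact_mod_cast h1
    rwa [Int.cast_abs, Int.cast_natCast] at h2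
  have hnB : (n : ℝ) ≤ B := hnc.trans (hcB _)
  have hn1' : (1 : ℝ) ≤ n := by exact_mod_cast hn1
  have hmB : |(m : ℝ)| ≤ (d + 1) * B := by
    rcases le_or_gt |(m : ℝ)| n with h1 | h1
    · have : (0 : ℝ) ≤ d * B := by positivity
      linarith
    · have hd : d ≠ 0 := by
        rintro rfl
        rw [Fin.sum_univ_zero, zero_add, pow_zero, mul_one] at hrel
        exact hcd hrel
      have hm0 : (0 : ℝ) < |(m : ℝ)| := by linarith
      have hrelR : (c (Fin.last d) : ℝ) * m ^ d =
          -∑ j : Fin d, (c j.castSucc : ℝ) * m ^ (j : ℕ) * (n : ℝ) ^ (d - j) := by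
        have : ((∑ j : Fin d, c j.castSucc * m ^ (j : ℕ) * (n : ℤ) ^ (d - j) +
            c (Fin.last d) * m ^ d : ℤ) : ℝ) = 0 := by exact_mod_cast hrel
        push_cast at this
        linarith
      have h2 : |(c (Fin.last d) : ℝ)| * |(m : ℝ)| ^ d ≤ d * (B * |(m : ℝ)| ^ (d - 1) * n) := by
        rw [← abs_pow, ← abs_mul, hrelR, abs_neg]
        refine (Finset.abs_sum_le_sum_abs _ _).trans ?_
        calc ∑ j : Fin d, |(c j.castSucc : ℝ) * m ^ (j : ℕ) * (n : ℝ) ^ (d - j)|
            ≤ ∑ j : Fin d, B * |(m : ℝ)| ^ (d - 1) * n := by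
              refine Finset.sum_le_sum fun j _ => ?_
              have hj : (j : ℕ) < d := j.2
              rw [abs_mul, abs_mul, abs_pow, abs_pow, Nat.abs_cast]
              have e1 : (n : ℝ) ^ (d - (j : ℕ)) = n ^ (d - 1 - (j : ℕ)) * n := by
                rw [← pow_succ]
                congr 1
                omega
              have e2 : |(m : ℝ)| ^ (d - 1) = |(m : ℝ)| ^ (j : ℕ) * |(m : ℝ)| ^ (d - 1 - (j : ℕ)) := by
                rw [← pow_add]
                congr 1
                omega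
              rw [e1, e2, ← mul_assoc, ← mul_assoc]
              refine mul_le_mul_of_nonneg_right ?_ (by positivity)
              refine mul_le_mul ?_ ?_ (by positivity) (by positivity)
              · exact mul_le_mul_of_nonneg_right (hcB _) (by positivity)
              · exact pow_le_pow_left₀ (by positivity) h1.le _
          _ = d * (B * |(m : ℝ)| ^ (d - 1) * n) := by
              rw [Finset.sum_const, Finset.card_univ, Fintype.card_fin, nsmul_eq_mul]
      have h3 : |(m : ℝ)| ^ d = |(m : ℝ)| ^ (d - 1) * |(m : ℝ)| := by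
        rw [← pow_succ]
        congr 1
        omega
      have h4 : |(c (Fin.last d) : ℝ)| * |(m : ℝ)| ≤ d * B * n := by
        have h5 : (0 : ℝ) < |(m : ℝ)| ^ (d - 1) := by positivity
        rw [h3] at h2
        have h6 : |(m : ℝ)| ^ (d - 1) * (|(c (Fin.last d) : ℝ)| * |(m : ℝ)|) ≤
            |(m : ℝ)| ^ (d - 1) * (d * B * n) := by
          calc _ = |(c (Fin.last d) : ℝ)| * (|(m : ℝ)| ^ (d - 1) * |(m : ℝ)|) := by ring
            _ ≤ d * (B * |(m : ℝ)| ^ (d - 1) * n) := h2
            _ = _ := by ring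
        exact le_of_mul_le_mul_left h6 h5
      have h7 : |(c (Fin.last d) : ℝ)| * |(m : ℝ)| ≤ |(c (Fin.last d) : ℝ)| * (d * B) := by
        refine h4.trans ?_
        rw [mul_comm]
        exact mul_le_mul_of_nonneg_right hnc (by positivity)
      have h8 : (0 : ℝ) < |(c (Fin.last d) : ℝ)| := by linarith
      have h9 := le_of_mul_le_mul_left h7 h8
      linarith
  have hmax : ((max m.natAbs n : ℕ) : ℝ) ≤ (d + 1) * (K + 1) * (H : ℝ) ^ e := by
    have hHe : (0 : ℝ) < (H : ℝ) ^ e := by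
      have : (0 : ℝ) < H := by exact_mod_cast hH1
      positivity
    have h1 : (d + 1) * B ≤ (d + 1) * (K + 1) * (H : ℝ) ^ e := by
      rw [hB]
      have : (0 : ℝ) ≤ (d + 1) * (H : ℝ) ^ e := by positivity
      nlinarith
    rw [Nat.cast_max]
    refine max_le ?_ ?_
    · have : (m.natAbs : ℝ) = |(m : ℝ)| := by
        rw [Nat.cast_natAbs, Int.cast_abs]
      rw [this]
      exact hmB.trans h1
    · have : (0 : ℝ) ≤ d * B := by positivity
      linarith
  rw [Rat.logHeight₁_eq_log_max, Rat.logHeight₁_eq_log_max]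
  have hpos : (0 : ℝ) < ((max m.natAbs n : ℕ) : ℝ) := by
    have : 1 ≤ max m.natAbs n := le_max_of_le_right hn1
    exact_mod_cast this
  have hHpos : (0 : ℝ) < H := by exact_mod_cast hH1
  calc Real.log ((max m.natAbs n : ℕ) : ℝ) ≤ Real.log ((d + 1) * (K + 1) * (H : ℝ) ^ e) :=
        Real.log_le_log hpos hmax
    _ = Real.log ((d + 1) * (K + 1)) + e * Real.log H := by
        rw [Real.log_mul (by positivity) (by positivity), Real.log_pow]
    _ = _ := by ring

end H78.Tw
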