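import Mathlib

set_option autoImplicit false

/-!
# Canonical heights on abelian groups and diagonal dominance
-/

namespace H78.Tw

open Filter Topology

section quad

variable {G : Type*} [AddCommGroup G]

/-- a function with the parallelogram law -/
structure Para (q : G → ℝ) : Prop where
  law : ∀ P Q, q (P + Q) + q (P - Q) = 2 * q P + 2 * q Q

namespace Para

variable {q : G → ℝ} (hq : Para q)

include hq

theorem zero : q 0 = 0 := by
  have := hq.law 0 0
  rw [add_zero, sub_zero] at this
  linarith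

theorem neg (P : G) : q (-P) = q P := by
  have := hq.law 0 P
  rw [zero_add, zero_sub, hq.zero] at this
  linarith

theorem three (P Q R : G) :
    q (P + Q + R) = q (P + Q) + q (P + R) + q (Q + R) - q P - q Q - q R := by
  have h1 := hq.law (P + Q) R
  have h2 := hq.law (P - R) Q
  have h3 := hq.law P (Q + R)
  have h4 := hq.law P R
  rw [show P - R + Q = P + Q - R by abel] at h2
  rw [show P - R - Q = P - (Q + R) by abel] at h2
  rw [show P + (Q + R) = P + Q + R by abel] at h3
  linarith

/-- the bilinear form -/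
noncomputable def bil : G →+ G →+ ℝ where
  toFun P :=
    { toFun := fun Q => (q (P + Q) - q P - q Q) / 2
      map_zero' := by rw [add_zero, hq.zero]; ring
      map_add' := fun Q R => by
        have := hq.three P Q R
        rw [show P + (Q + R) = P + Q + R by abel, this]
        ring }
  map_zero' := by
    ext Q
    simp [hq.zero]
  map_add' P P' := by
    ext Q
    have := hq.three P P' Q
    simp only [AddMonoidHom.coe_mk, ZeroHom.coe_mk, AddMonoidHom.add_apply]
    rw [this]
    ring

theorem bil_apply (P Q : G) : hq.bil P Q = (q (P + Q) - q P - q Q) / 2 := rfl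

theorem bil_self (P : G) : hq.bil P P = q P := by
  have := hq.law P P
  rw [sub_self, hq.zero] at this
  rw [bil_apply]
  linarith

theorem bil_eq (P Q : G) : hq.bil P Q = (q (P + Q) - q (P - Q)) / 4 := by
  have := hq.law P Q
  rw [bil_apply]
  linarith

end Para

/-- the canonical height -/
theorem exists_canonical (h : G → ℝ) (C : ℝ)
    (H : ∀ P Q, |h (P + Q) + h (P - Q) - 2 * h P - 2 * h Q| ≤ C) :
    ∃ q : G → ℝ, Para q ∧ ∀ P, |q P - h P| ≤ C / 2 := by
  have h0 : |h 0| ≤ C / 2 := by
    have := H 0 0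
    rw [add_zero, sub_zero, show h 0 + h 0 - 2 * h 0 - 2 * h 0 = -(2 * h 0) by ring, abs_neg,
      abs_mul, abs_two] at this
    linarith
  have h2 : ∀ P, |h (2 • P) - 4 * h P| ≤ 3 / 2 * C := by
    intro P
    have h1 := H P P
    rw [sub_self, ← two_nsmul] at h1
    have e : h (2 • P) - 4 * h P = (h (2 • P) + h 0 - 2 * h P - 2 * h P) - h 0 := by ring
    rw [e]
    refine (abs_sub _ _).trans ?_
    linarith
  set a : G → ℕ → ℝ := fun P k => h ((2 ^ k) • P) / 4 ^ k with ha
  have hstep : ∀ P k, dist (a P k) (a P (k + 1)) ≤ (3 / 8 * C) * (1 / 4) ^ k := by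
    intro P k
    have h1 := h2 ((2 ^ k) • P)
    rw [← mul_nsmul', mul_comm, ← pow_succ] at h1
    rw [ha, Real.dist_eq, abs_sub_comm]
    have e : h ((2 ^ (k + 1)) • P) / 4 ^ (k + 1) - h ((2 ^ k) • P) / 4 ^ k =
        (h ((2 ^ (k + 1)) • P) - 4 * h ((2 ^ k) • P)) * (1 / 4 * (1 / 4) ^ k) := by
      rw [pow_succ (4 : ℝ) k, one_div, inv_pow]
      field_simp
    simp only
    rw [e, abs_mul, abs_of_pos (show (0 : ℝ) < 1 / 4 * (1 / 4) ^ k by positivity)]
    have : (0 : ℝ) < (1 / 4) ^ k := by positivity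
    nlinarith
  have hlim : ∀ P, ∃ l, Tendsto (a P) atTop (𝓝 l) := fun P =>
    cauchySeq_tendsto_of_complete (cauchySeq_of_le_geometric (1 / 4) (3 / 8 * C) (by norm_num)
      (hstep P))
  choose q hq using hlim
  refine ⟨q, ⟨fun P Q => ?_⟩, fun P => ?_⟩
  · have t1 : Tendsto (fun k => a (P + Q) k + a (P - Q) k - 2 * a P k - 2 * a Q k) atTop
        (𝓝 (q (P + Q) + q (P - Q) - 2 * q P - 2 * q Q)) :=
      (((hq (P + Q)).add (hq (P - Q))).sub ((hq P).const_mul 2)).sub ((hq Q).const_mul 2)
    have t2 : Tendsto (fun k => a (P + Q) k + a (P - Q) k - 2 * a P k - 2 * a Q k) atTop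
        (𝓝 0) := by
      refine squeeze_zero_norm (a := fun k : ℕ => C * (1 / 4) ^ k) (fun k => ?_) ?_
      · have h1 := H ((2 ^ k) • P) ((2 ^ k) • Q)
        rw [← nsmul_add, ← nsmul_sub] at h1
        have e : a (P + Q) k + a (P - Q) k - 2 * a P k - 2 * a Q k =
            (h ((2 ^ k) • (P + Q)) + h ((2 ^ k) • (P - Q)) - 2 * h ((2 ^ k) • P) -
              2 * h ((2 ^ k) • Q)) * (1 / 4) ^ k := by
          simp only [ha]
          rw [one_div, inv_pow]
          field_simp
        rw [e, Real.norm_eq_abs, abs_mul, abs_of_pos (show (0 : ℝ) < (1 / 4) ^ k by positivity)]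
        have : (0 : ℝ) < (1 / 4) ^ k := by positivity
        nlinarith
      · have := (tendsto_pow_atTop_nhds_zero_of_lt_one (r := (1 / 4 : ℝ)) (by norm_num)
          (by norm_num)).const_mul C
        rwa [mul_zero] at this
    have := tendsto_nhds_unique t1 t2
    linarith
  · have h1 := dist_le_of_le_geometric_of_tendsto₀ (1 / 4) (3 / 8 * C) (by norm_num) (hstep P)
      (hq P)
    have e : a P 0 = h P := by simp [ha]
    rw [e, Real.dist_eq, abs_sub_comm] at h1
    refine h1.trans (le_of_eq ?_)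
    ring

end quad

/-- diagonal dominance -/
theorem linInd_of_dominant {G : Type*} [AddCommGroup G] (h : G → ℝ) (C : ℝ)
    (H : ∀ P Q, |h (P + Q) + h (P - Q) - 2 * h P - 2 * h Q| ≤ C) {n : ℕ} (P : Fin n → G)
    (b : Fin n → Fin n → ℝ) (_hsym : ∀ i j, b i j = b j i)
    (hb : ∀ i j, i ≠ j → |h (P i + P j) - h (P i - P j)| ≤ 4 * b i j)
    (hdom : ∀ i, ∑ j ∈ Finset.univ.erase i, (b i j + C) + C < h (P i)) :
    LinearIndependent ℤ P := by
  classical
  obtain ⟨q, hq, hqh⟩ := exists_canonical h C H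
  have hC : 0 ≤ C := (abs_nonneg _).trans (H 0 0)
  have hF : ∀ i j, i ≠ j → |hq.bil (P i) (P j)| ≤ b i j + C := by
    intro i j hij
    rw [hq.bil_eq, abs_div, abs_of_pos (show (0 : ℝ) < 4 by norm_num)]
    have h1 := hb i j hij
    have h2 := hqh (P i + P j)
    have h3 := hqh (P i - P j)
    rw [abs_le] at h1 h2 h3
    have h4 : |q (P i + P j) - q (P i - P j)| ≤ 4 * (b i j + C) := by
      rw [abs_le]
      constructor <;> linarith
    linarith
  rw [Fintype.linearIndependent_iff]
  intro g hg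
  by_contra hcon
  push Not at hcon
  obtain ⟨i₀, hi₀⟩ := hcon
  obtain ⟨i, -, hi⟩ := Finset.exists_max_image Finset.univ (fun i => |g i|) ⟨i₀, Finset.mem_univ _⟩
  have hgi : (0 : ℝ) < |(g i : ℝ)| := by
    have h1 := hi i₀ (Finset.mem_univ _)
    have h2 : 0 < |g i₀| := abs_pos.2 hi₀
    have h3 : (0 : ℤ) < |g i| := lt_of_lt_of_le h2 h1
    exact_mod_cast h3
  have h1 : ∑ j, (g j : ℝ) * hq.bil (P i) (P j) = 0 := by
    have := congrArg (hq.bil (P i)) hg
    rw [map_sum, map_zero] at this
    rw [← this]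
    refine Finset.sum_congr rfl fun j _ => ?_
    rw [map_zsmul, zsmul_eq_mul]
  rw [← Finset.add_sum_erase _ _ (Finset.mem_univ i), hq.bil_self] at h1
  have h2 : |(g i : ℝ)| * q (P i) ≤
      |(g i : ℝ)| * ∑ j ∈ Finset.univ.erase i, (b i j + C) := by
    calc |(g i : ℝ)| * q (P i) ≤ |(g i : ℝ) * q (P i)| := by
          rw [abs_mul]
          exact mul_le_mul_of_nonneg_left (le_abs_self _) (abs_nonneg _)
      _ = |∑ j ∈ Finset.univ.erase i, (g j : ℝ) * hq.bil (P i) (P j)| := by
          rw [eq_neg_of_add_eq_zero_left h1, abs_neg]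
      _ ≤ ∑ j ∈ Finset.univ.erase i, |(g j : ℝ) * hq.bil (P i) (P j)| :=
          Finset.abs_sum_le_sum_abs _ _
      _ ≤ ∑ j ∈ Finset.univ.erase i, |(g i : ℝ)| * (b i j + C) := by
          refine Finset.sum_le_sum fun j hj => ?_
          rw [abs_mul]
          have hji : i ≠ j := (Finset.ne_of_mem_erase hj).symm
          have h3 : |(g j : ℝ)| ≤ |(g i : ℝ)| := by
            have := hi j (Finset.mem_univ _)
            exact_mod_cast this
          exact mul_le_mul h3 (hF i j hji) (abs_nonneg _) (abs_nonneg _)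
      _ = |(g i : ℝ)| * ∑ j ∈ Finset.univ.erase i, (b i j + C) := by rw [Finset.mul_sum]
  have h3 := le_of_mul_le_mul_left h2 hgi
  have h4 := hdom i
  have h5 := hqh (P i)
  rw [abs_le] at h5
  linarith

end H78.Tw
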